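import Pool.Agent.Lib.MP_2710d6_gt.KS.Defs
import Pool.Agent.Lib.MP_2710d6_gt.HK.Chart

namespace Pool.Agent.DonPM

open Pool.Agent.DonHK (Pt Tan Form2 Sm2)
open Pool.Agent.DonKS (End1 IsCx anti)

/-- There is a basis on which `J` is the standard complex structure and which is orthonormal for
`B (u, J v)`. -/
def HasUnitary {V : Type*} [AddCommGroup V] [Module ℝ V] (J : V →ₗ[ℝ] V)
    (B : LinearMap.BilinForm ℝ V) : Prop :=
  ∃ v : Module.Basis (Fin 4) ℝ V, IsCx J v ∧ ∀ a c, B (v a) (J (v c)) = if a = c then 1 else 0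

variable {M : Type*} [TopologicalSpace M] [ChartedSpace Pt M]

/-- An almost Hermitian structure: `Ω` is a smooth two-form, the `J`-anti-invariant part of a
smooth two-form is smooth, and every tangent space has a basis on which `J` is the standard complex
structure and which is orthonormal for `Ω (u, J v)`. -/
def IsHermitian (J : End1 M) (Ω : Form2 M) : Prop :=
  Sm2 Ω ∧ (∀ α : Form2 M, Sm2 α → Sm2 fun x => anti (J x) (α x)) ∧
    ∀ x : M, HasUnitary (J x) (Ω x)

end Pool.Agent.DonPM
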