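import Pool.Agent.Lib.MP_2710d6_gt.PM.Defs
import Pool.Agent.Lib.MP_2710d6_gt.KS.Var
import Pool.Agent.Lib.MP_2710d6_gt.HK.Conv

open MeasureTheory Set Filter Topology
open scoped Manifold ContDiff

namespace Pool.Agent.DonPM

open Pool.Agent.DonHK (Pt Tan Form2 Sm2 Sm Nd IsD wedge lin ev mat quot Closed2 Exact IsVol
  wedge_fr sm_quot hasDerivAt_quot quot_add quot_sub quot_smul quot_comm stokes sm_loc)
open Pool.Agent.DonKS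

theorem alg (p1 p2 p3 m1 m2 m3 q1 q2 q3 n1 n2 n3 u v c : ℝ) (hu : 0 < u) (hv : 0 < v)
    (eu : u = (p1 ^ 2 + p2 ^ 2 + p3 ^ 2 - (m1 ^ 2 + m2 ^ 2 + m3 ^ 2)) / 2)
    (ev' : v = (q1 ^ 2 + q2 ^ 2 + q3 ^ 2 - (n1 ^ 2 + n2 ^ 2 + n3 ^ 2)) / 2)
    (h1 : p1 ^ 2 + p2 ^ 2 + p3 ^ 2 - 2 * u ≤ c * u ^ 2) (h2 : c * u ^ 2 ≤ p1 ^ 2 + p2 ^ 2 + p3 ^ 2) :
    0 ≤ (q1 ^ 2 + q2 ^ 2 + q3 ^ 2) / v - (p1 ^ 2 + p2 ^ 2 + p3 ^ 2) / u -
      2 * ((p1 * (q1 - p1) + p2 * (q2 - p2) + p3 * (q3 - p3)) / u -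
        (p1 ^ 2 + p2 ^ 2 + p3 ^ 2) / u ^ 2 *
          ((p1 * q1 + p2 * q2 + p3 * q3 - (m1 * n1 + m2 * n2 + m3 * n3)) / 2 - u)) +
      c * (v - (p1 * q1 + p2 * q2 + p3 * q3 - (m1 * n1 + m2 * n2 + m3 * n3)) + u) := by
  have a : 0 ≤ (c * u ^ 2 - (p1 ^ 2 + p2 ^ 2 + p3 ^ 2 - 2 * u)) *
      ((u * q1 - v * p1) ^ 2 + (u * q2 - v * p2) ^ 2 + (u * q3 - v * p3) ^ 2) :=
    mul_nonneg (sub_nonneg.2 h1) (by positivity)
  have b : 0 ≤ (p1 ^ 2 + p2 ^ 2 + p3 ^ 2 - c * u ^ 2) *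
      ((u * n1 - v * m1) ^ 2 + (u * n2 - v * m2) ^ 2 + (u * n3 - v * m3) ^ 2) :=
    mul_nonneg (sub_nonneg.2 h2) (by positivity)
  have e1 : m1 ^ 2 = p1 ^ 2 + p2 ^ 2 + p3 ^ 2 - 2 * u - m2 ^ 2 - m3 ^ 2 := by linarith
  have e2 : n1 ^ 2 = q1 ^ 2 + q2 ^ 2 + q3 ^ 2 - 2 * v - n2 ^ 2 - n3 ^ 2 := by linarith
  have := div_nonneg (add_nonneg a b) (show 0 ≤ 2 * u ^ 3 * v by positivity)
  refine this.trans (le_of_eq ?_)
  rw [div_eq_iff (by positivity)]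
  field_simp
  linear_combination (p1 ^ 2 + p2 ^ 2 + p3 ^ 2 - c * u ^ 2) * v ^ 2 * e1 +
    (p1 ^ 2 + p2 ^ 2 + p3 ^ 2 - c * u ^ 2) * u ^ 2 * e2

variable {M : Type*} [TopologicalSpace M] [ChartedSpace Pt M] {J : End1 M} {Ω ρ ζ σ : Form2 M}

theorem IsHermitian.nf (h : IsHermitian J Ω) (x : M) : ∃ v, NF (J x) (Ω x) v := by
  obtain ⟨v, c, o⟩ := h.2.2 x
  obtain ⟨c0, c1, c2, c3⟩ := c
  have a := o 0 0
  have b := o 0 2
  have d := o 0 3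
  have e := o 1 2
  have f := o 1 3
  have g := o 2 2
  simp only [c0, c2, c3, map_neg, neg_eq_zero, if_true, Fin.reduceEq, if_false] at a b d e f g
  exact ⟨v, ⟨c0, c1, c2, c3⟩, a, d, b, f, e, g, fun u => ⟨v.repr u, (v.sum_repr u).symm⟩⟩

theorem IsHermitian.nd (h : IsHermitian J Ω) : Nd Ω := by
  refine ⟨h.1, fun x h0 => ?_⟩
  obtain ⟨v, hv⟩ := h.nf x
  have h1 := wedge_fr (h.1.1 x) (h.1.1 x) v
  rw [hv.wedge, hv.b01, hv.b23] at h1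
  change _ = _ * wedge (mat Ω x) (mat Ω x) at h1
  rw [h0] at h1
  norm_num at h1

theorem IsHermitian.quot_anti (h : IsHermitian J Ω) (hρ : Sm2 ρ) (hζ : Sm2 ζ) (x : M) :
    quot Ω (fun x => anti (J x) (ζ x)) (fun x => anti (J x) (ρ x)) x =
      quot Ω ζ (fun x => anti (J x) (ρ x)) x := by
  obtain ⟨v, hv⟩ := h.nf x
  rw [hv.quot (h.1.1 x) (anti_alt (hζ.1 x)) (anti_alt (hρ.1 x)),
    hv.quot (h.1.1 x) (hζ.1 x) (anti_alt (hρ.1 x))]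
  obtain ⟨a1, a2, a3, a4, a5, a6⟩ := ev_anti' hv.cx (hρ.1 x)
  obtain ⟨b1, b2, b3, b4, b5, b6⟩ := ev_anti' hv.cx (hζ.1 x)
  simp only [wedge, a1, a2, a3, a4, a5, a6, b1, b2, b3, b4, b5, b6]
  ring

theorem point (h : IsHermitian J Ω) (hρ : Sm2 ρ) (hσ : Sm2 σ) {c : ℝ} (x : M)
    (hp : 0 < quot Ω ρ ρ x) (hs : 0 < quot Ω σ σ x)
    (h1 : sdTwo J Ω ρ x - 2 * quot Ω ρ ρ x ≤ c * quot Ω ρ ρ x ^ 2)
    (h2 : c * quot Ω ρ ρ x ^ 2 ≤ sdTwo J Ω ρ x) :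
    0 ≤ sdTwo J Ω σ x / quot Ω σ σ x - sdTwo J Ω ρ x / quot Ω ρ ρ x -
      2 * quot Ω (σ - ρ) (th J Ω ρ) x + c * quot Ω (σ - ρ) (σ - ρ) x := by
  obtain ⟨v, hv⟩ := h.nf x
  have o := h.1.1 x
  have S : ∀ {τ : Form2 M}, Sm2 τ → sdTwo J Ω τ x = (ev (τ x) v 0 1 + ev (τ x) v 2 3) ^ 2 +
      (ev (τ x) v 0 2 - ev (τ x) v 1 3) ^ 2 + (ev (τ x) v 0 3 + ev (τ x) v 1 2) ^ 2 := by
    intro τ hτ
    obtain ⟨a1, a2, a3, a4, a5, a6⟩ := ev_anti' hv.cx (hτ.1 x)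
    rw [sdTwo, hv.quot o (hτ.1 x) o, hv.quot o (anti_alt (hτ.1 x)) (anti_alt (hτ.1 x)), hv.wedge]
    simp only [wedge, a1, a2, a3, a4, a5, a6]
    ring
  have A := alg (ev (ρ x) v 0 1 + ev (ρ x) v 2 3) (ev (ρ x) v 0 2 - ev (ρ x) v 1 3)
    (ev (ρ x) v 0 3 + ev (ρ x) v 1 2) (ev (ρ x) v 0 1 - ev (ρ x) v 2 3)
    (ev (ρ x) v 0 2 + ev (ρ x) v 1 3) (ev (ρ x) v 0 3 - ev (ρ x) v 1 2)
    (ev (σ x) v 0 1 + ev (σ x) v 2 3) (ev (σ x) v 0 2 - ev (σ x) v 1 3)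
    (ev (σ x) v 0 3 + ev (σ x) v 1 2) (ev (σ x) v 0 1 - ev (σ x) v 2 3)
    (ev (σ x) v 0 2 + ev (σ x) v 1 3) (ev (σ x) v 0 3 - ev (σ x) v 1 2) _ _ c hp hs
    (by rw [hv.quot o (hρ.1 x) (hρ.1 x), wedge]; ring)
    (by rw [hv.quot o (hσ.1 x) (hσ.1 x), wedge]; ring) (S hρ ▸ h1) (S hρ ▸ h2)
  obtain ⟨a1, a2, a3, a4, a5, a6⟩ := ev_anti' hv.cx (hρ.1 x)
  have e1 := hv.quot o (hσ.1 x) (hρ.1 x)
  have e2 := hv.quot o (hσ.1 x) o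
  have e3 := hv.quot o (hρ.1 x) o
  have e4 := hv.quot (β := fun x => anti (J x) (ρ x)) o (hσ.1 x) (anti_alt (hρ.1 x))
  have e5 := hv.quot (β := fun x => anti (J x) (ρ x)) o (hρ.1 x) (anti_alt (hρ.1 x))
  rw [hv.wedge] at e2 e3
  simp only [wedge, a1, a2, a3, a4, a5, a6] at e1 e4 e5
  refine A.trans (le_of_eq ?_)
  rw [quot_th, quot_sub _ σ ρ (σ - ρ), quot_comm _ σ (σ - ρ), quot_comm _ ρ (σ - ρ)]
  simp only [quot_sub, nn, kk, S hρ, S hσ, quot_comm _ ρ σ, e1, e2, e3, e4, e5]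
  ring

variable [IsManifold 𝓘(ℝ, Pt) ∞ M]

theorem of_kaehler (h : IsKaehler J Ω) : IsHermitian J Ω := by
  refine ⟨h.2.1.sm, fun _ => h.sm_anti, fun x => ?_⟩
  obtain ⟨v, hv⟩ := h.nf x
  have o := h.2.1.1 x
  have sp : ⊤ ≤ Submodule.span ℝ (range v) := fun u _ => by
    obtain ⟨z, rfl⟩ := hv.span u
    exact Submodule.sum_mem _ fun a _ =>
      Submodule.smul_mem _ _ (Submodule.subset_span (mem_range_self a))
  have cd : Fintype.card (Fin 4) = Module.finrank ℝ (Tan x) :=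
    (Module.finrank_fintype_fun_eq_card ℝ (η := Fin 4)).symm
  refine ⟨basisOfTopLeSpanOfCardEqFinrank v sp cd, ?_⟩
  rw [coe_basisOfTopLeSpanOfCardEqFinrank]
  refine ⟨hv.cx, fun a c => ?_⟩
  obtain ⟨c0, c1, c2, c3⟩ := hv.cx
  have b1 : Ω x (v 0) (v 1) = 1 := hv.b01
  have b2 : Ω x (v 0) (v 2) = 0 := hv.b02
  have b3 : Ω x (v 0) (v 3) = 0 := hv.b03
  have b4 : Ω x (v 1) (v 2) = 0 := hv.b12
  have b5 : Ω x (v 1) (v 3) = 0 := hv.b13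
  have b6 : Ω x (v 2) (v 3) = 1 := hv.b23
  have d1 := o.neg_eq (v 0) (v 1)
  have d2 := o.neg_eq (v 0) (v 2)
  have d3 := o.neg_eq (v 0) (v 3)
  have d4 := o.neg_eq (v 1) (v 2)
  have d5 := o.neg_eq (v 1) (v 3)
  have d6 := o.neg_eq (v 2) (v 3)
  have s := fun a => o.self_eq_zero (v a)
  fin_cases a <;> fin_cases c <;>
    simp [c0, c1, c2, c3, s, ← d1, ← d2, ← d3, ← d4, ← d5, ← d6, b1, b2, b3, b4, b5, b6]

theorem sm_sd (h : IsHermitian J Ω) (hρ : Sm2 ρ) : Sm (sdTwo J Ω ρ) :=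
  ((sm_quot h.nd hρ h.1).pow 2).add (contMDiff_const.mul
    (sm_quot h.nd (h.2.1 _ hρ) (h.2.1 _ hρ)))

theorem sm_th (h : IsHermitian J Ω) (hρ : Sm2 ρ) (hp : ∀ x, 0 < quot Ω ρ ρ x) :
    Sm2 (th J Ω ρ) := by
  have s1 : Sm (kk Ω ρ) := (sm_quot h.nd hρ h.1).div₀ (sm_quot h.nd hρ hρ) fun x => (hp x).ne'
  have s2 : Sm fun x => 2 / quot Ω ρ ρ x :=
    contMDiff_const.div₀ (sm_quot h.nd hρ hρ) fun x => (hp x).ne'
  have s3 : Sm (nn J Ω ρ) :=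
    (sm_sd h hρ).div₀ ((sm_quot h.nd hρ hρ).pow 2) fun x => pow_ne_zero 2 (hp x).ne'
  refine ⟨fun x u => ?_, fun p a c => (((sm_loc s1 p).mul (h.1.2 p a c)).add
    ((sm_loc s2 p).mul ((h.2.1 _ hρ).2 p a c))).sub ((sm_loc s3 p).mul (hρ.2 p a c))⟩
  change _ * Ω x u u + _ * anti (J x) (ρ x) u u - _ * ρ x u u = 0
  rw [h.1.1 x u, hρ.1 x u, anti_alt (hρ.1 x) u]
  ring

variable [MeasurableSpace M] {μ : Measure M} [CompactSpace M] [BorelSpace M]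

theorem deriv_energy (h : IsHermitian J Ω) (hμ : IsVol Ω μ) (hρ : Sm2 ρ)
    (hp : ∀ x, 0 < quot Ω ρ ρ x) (hζ : Sm2 ζ) :
    HasDerivAt (fun t : ℝ => energy J Ω μ fun x => lin (ρ x) (ζ x) t)
      (∫ x, 2 * quot Ω ζ (th J Ω ρ) x ∂μ) 0 := by
  have := hμ.1
  have a := (sm_quot h.nd hρ h.1).continuous
  have b := (sm_quot h.nd hζ h.1).continuous
  have c := (sm_quot h.nd (h.2.1 _ hρ) (h.2.1 _ hρ)).continuous
  have d := (sm_quot h.nd hζ (h.2.1 _ hρ)).continuous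
  have e := (sm_quot h.nd (h.2.1 _ hζ) (h.2.1 _ hζ)).continuous
  have k := h.quot_anti hρ hζ
  have l : ∀ t : ℝ, (fun x => anti (J x) (lin (ρ x) (ζ x) t)) =
      (fun x => anti (J x) (ρ x)) + t • fun x => anti (J x) (ζ x) := fun t => by
    ext x u v
    simp only [anti_apply, lin, Pi.add_apply, Pi.smul_apply, LinearMap.add_apply,
      LinearMap.smul_apply, smul_eq_mul]
    ring
  have l' : ∀ t : ℝ, (fun x => lin (ρ x) (ζ x) t) = ρ + t • ζ := fun _ => rfl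
  unfold energy sdTwo
  simp only [l]
  generalize hκ : (fun x => anti (J x) (ρ x)) = κ at *
  generalize (fun x => anti (J x) (ζ x)) = κ' at *
  convert hasDerivAt_quot μ (N0 := fun x => quot Ω ρ Ω x ^ 2 + 2 * quot Ω κ κ x)
    (N1 := fun x => 2 * (quot Ω ρ Ω x * quot Ω ζ Ω x) + 4 * quot Ω ζ κ x)
    (N2 := fun x => quot Ω ζ Ω x ^ 2 + 2 * quot Ω κ' κ' x) (U1 := fun x => 2 * quot Ω ζ ρ x)
    (by fun_prop) (by fun_prop) (by fun_prop) (sm_quot h.nd hρ hρ).continuous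
    (continuous_const.mul (sm_quot h.nd hζ hρ).continuous) (sm_quot h.nd hζ hζ).continuous hp
    using 2 with t
  · congr 1
    ext x
    rw [l']
    congr 1
    · rw [quot_add, quot_smul, quot_add, quot_smul, quot_comm _ κ, quot_comm _ κ', quot_add,
        quot_smul, quot_add, quot_smul, quot_comm _ κ κ', k]
      ring
    · rw [quot_add, quot_smul, quot_comm _ ρ, quot_comm _ ζ, quot_add, quot_smul, quot_add,
        quot_smul, quot_comm _ ρ ζ]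
      ring
  · ext x
    have := (hp x).ne'
    simp only [quot_th, nn, kk, sdTwo, hκ]
    field_simp
    ring

variable [T2Space M]

theorem main (h : IsHermitian J Ω) (hμ : IsVol Ω μ) (hρ : Sm2 ρ) (hp : ∀ x, 0 < quot Ω ρ ρ x)
    (hc : IsCritical J Ω μ ρ) {c : ℝ}
    (h1 : ∀ x, sdTwo J Ω ρ x - 2 * quot Ω ρ ρ x ≤ c * quot Ω ρ ρ x ^ 2)
    (h2 : ∀ x, c * quot Ω ρ ρ x ^ 2 ≤ sdTwo J Ω ρ x) (hσ : Sm2 σ) (hs : ∀ x, 0 < quot Ω σ σ x)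
    (he : Exact (σ - ρ)) : energy J Ω μ ρ ≤ energy J Ω μ σ := by
  have hz := he.closed
  have z1 := (deriv_energy h hμ hρ hp hz.sm).unique (hc _ he)
  obtain ⟨l, hl⟩ := he
  have z2 := stokes h.nd hμ (l := l) hl hz
  have iE : ∀ {τ : Form2 M}, Sm2 τ → (∀ x, 0 < quot Ω τ τ x) →
      Integrable (fun x => sdTwo J Ω τ x / quot Ω τ τ x) μ := fun hτ ht =>
    hμ.int ((sm_sd h hτ).continuous.div (sm_quot h.nd hτ hτ).continuous fun x => (ht x).ne')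
  have i1 : Integrable (fun x => 2 * quot Ω (σ - ρ) (th J Ω ρ) x) μ :=
    (hμ.int (sm_quot h.nd hz.sm (sm_th h hρ hp)).continuous).const_mul 2
  have i2 : Integrable (fun x => c * quot Ω (σ - ρ) (σ - ρ) x) μ :=
    (hμ.int (sm_quot h.nd hz.sm hz.sm).continuous).const_mul c
  have : 0 ≤ ∫ x, (sdTwo J Ω σ x / quot Ω σ σ x - sdTwo J Ω ρ x / quot Ω ρ ρ x -
      2 * quot Ω (σ - ρ) (th J Ω ρ) x + c * quot Ω (σ - ρ) (σ - ρ) x) ∂μ :=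
    integral_nonneg fun x => point h hρ hσ x (hp x) (hs x) (h1 x) (h2 x)
  have j1 : Integrable (fun x => sdTwo J Ω σ x / quot Ω σ σ x - sdTwo J Ω ρ x / quot Ω ρ ρ x) μ :=
    (iE hσ hs).sub (iE hρ hp)
  have j2 : Integrable (fun x => sdTwo J Ω σ x / quot Ω σ σ x - sdTwo J Ω ρ x / quot Ω ρ ρ x -
      2 * quot Ω (σ - ρ) (th J Ω ρ) x) μ := j1.sub i1
  rw [integral_add j2 i2, integral_sub j1 i1, integral_sub (iE hσ hs) (iE hρ hp), z1,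
    integral_const_mul, z2] at this
  unfold energy
  linarith

omit [IsManifold 𝓘(ℝ, Pt) ∞ M] [T2Space M] in
theorem zero_of (hμ : IsVol Ω μ) {f : M → ℝ} (hf : Continuous f) (h0 : ∀ x, 0 ≤ f x)
    (h1 : ∫ x, f x ∂μ ≤ 0) (x : M) : f x = 0 := by
  have := hμ.2.1
  exact congrFun ((Continuous.ae_eq_iff_eq μ hf continuous_zero).1
    ((integral_eq_zero_iff_of_nonneg h0 (hμ.int hf)).1 (le_antisymm h1 (integral_nonneg h0)))) x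

omit [IsManifold 𝓘(ℝ, Pt) ∞ M] [MeasurableSpace M] [CompactSpace M] [BorelSpace M] [T2Space M] in
theorem point2 (h : IsHermitian J Ω) (hρ : Sm2 ρ) (x : M) :
    quot Ω Ω Ω x = 2 ∧ sdTwo J Ω Ω x = 4 ∧ 2 * quot Ω ρ ρ x ≤ sdTwo J Ω ρ x ∧
      (2 * quot Ω ρ ρ x = sdTwo J Ω ρ x → 0 ≤ quot Ω (Ω - ρ) (Ω - ρ) x ∧
        (quot Ω (Ω - ρ) (Ω - ρ) x = 0 → ρ x = Ω x)) := by
  obtain ⟨v, hv⟩ := h.nf x
  have o := h.1.1 x
  have S : ∀ {τ : Form2 M}, Sm2 τ → sdTwo J Ω τ x = (ev (τ x) v 0 1 + ev (τ x) v 2 3) ^ 2 +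
      (ev (τ x) v 0 2 - ev (τ x) v 1 3) ^ 2 + (ev (τ x) v 0 3 + ev (τ x) v 1 2) ^ 2 := by
    intro τ hτ
    obtain ⟨a1, a2, a3, a4, a5, a6⟩ := ev_anti' hv.cx (hτ.1 x)
    rw [sdTwo, hv.quot o (hτ.1 x) o, hv.quot o (anti_alt (hτ.1 x)) (anti_alt (hτ.1 x)), hv.wedge]
    simp only [wedge, a1, a2, a3, a4, a5, a6]
    ring
  have e0 : quot Ω Ω Ω x = 2 := by rw [hv.quot o o o, hv.wedge, hv.b01, hv.b23]; norm_num
  have e1 := hv.quot o (hρ.1 x) (hρ.1 x)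
  have e2 := hv.quot o (hρ.1 x) o
  rw [hv.wedge] at e2
  have e3 : quot Ω (Ω - ρ) (Ω - ρ) x = 2 - 2 * quot Ω ρ Ω x + quot Ω ρ ρ x := by
    rw [quot_sub, quot_comm _ Ω (Ω - ρ), quot_comm _ ρ (Ω - ρ), quot_sub, quot_sub, e0,
      quot_comm _ Ω ρ]
    ring
  have X : ev (ρ x) v 0 1 = 1 → ev (ρ x) v 0 2 = 0 → ev (ρ x) v 0 3 = 0 → ev (ρ x) v 1 2 = 0 →
      ev (ρ x) v 1 3 = 0 → ev (ρ x) v 2 3 = 1 → ρ x = Ω x := fun a b c d e f => by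
    refine LinearMap.ext fun u => LinearMap.ext fun w => ?_
    obtain ⟨r, rfl⟩ := hv.span u
    obtain ⟨s, rfl⟩ := hv.span w
    have b1 := hv.b01
    have b2 := hv.b02
    have b3 := hv.b03
    have b4 := hv.b12
    have b5 := hv.b13
    have b6 := hv.b23
    simp only [ev] at a b c d e f b1 b2 b3 b4 b5 b6
    rw [DonHK.ev_exp (hρ.1 x), DonHK.ev_exp o, a, b, c, d, e, f, b1, b2, b3, b4, b5, b6]
  rw [S hρ, S h.1, e3, e2, e1, hv.b01, hv.b02, hv.b03, hv.b12, hv.b13, hv.b23, wedge]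
  generalize ev (ρ x) v 0 1 = a at *
  generalize ev (ρ x) v 0 2 = b at *
  generalize ev (ρ x) v 0 3 = c at *
  generalize ev (ρ x) v 1 2 = d at *
  generalize ev (ρ x) v 1 3 = e at *
  generalize ev (ρ x) v 2 3 = f at *
  refine ⟨e0, by norm_num, by nlinarith [sq_nonneg (a - f), sq_nonneg (b + e), sq_nonneg (c - d)],
    fun k => ?_⟩
  have k1 : (a - f) ^ 2 + (b + e) ^ 2 + (c - d) ^ 2 = 0 := by linear_combination -k
  have l1 : a = f := by nlinarith [sq_nonneg (a - f), sq_nonneg (b + e), sq_nonneg (c - d)]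
  have l2 : e = -b := by nlinarith [sq_nonneg (a - f), sq_nonneg (b + e), sq_nonneg (c - d)]
  have l3 : d = c := by nlinarith [sq_nonneg (a - f), sq_nonneg (b + e), sq_nonneg (c - d)]
  subst l1 l2 l3
  refine ⟨by nlinarith [sq_nonneg (a - 1), sq_nonneg b, sq_nonneg d], fun z => ?_⟩
  have z1 : (a - 1) ^ 2 + b ^ 2 + d ^ 2 = 0 := by linear_combination z / 2
  have y1 : a = 1 := by nlinarith [sq_nonneg (a - 1), sq_nonneg b, sq_nonneg d]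
  have y2 : b = 0 := by nlinarith [sq_nonneg (a - 1), sq_nonneg b, sq_nonneg d]
  have y3 : d = 0 := by nlinarith [sq_nonneg (a - 1), sq_nonneg b, sq_nonneg d]
  exact X y1 y2 y3 y3 (by rw [y2, neg_zero]) y1

theorem eq_of_le (h : IsHermitian J Ω) (hμ : IsVol Ω μ) (hρ : Sm2 ρ)
    (hp : ∀ x, 0 < quot Ω ρ ρ x) (he : Exact (Ω - ρ))
    (hE : energy J Ω μ ρ ≤ energy J Ω μ Ω) : ρ = Ω := by
  have hz := he.closed
  obtain ⟨l, hl⟩ := he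
  have z2 := stokes h.nd hμ (l := l) hl hz
  have cE : ∀ {τ : Form2 M}, Sm2 τ → (∀ x, 0 < quot Ω τ τ x) →
      Continuous fun x => sdTwo J Ω τ x / quot Ω τ τ x := fun hτ ht =>
    (sm_sd h hτ).continuous.div (sm_quot h.nd hτ hτ).continuous fun x => (ht x).ne'
  have p0 : ∀ x, 0 < quot Ω Ω Ω x := fun x => (point2 h hρ x).1.symm ▸ two_pos
  have k : ∀ x, sdTwo J Ω Ω x / quot Ω Ω Ω x = 2 := fun x => by
    rw [(point2 h hρ x).1, (point2 h hρ x).2.1]; norm_num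
  have A := zero_of hμ (f := fun x => sdTwo J Ω ρ x / quot Ω ρ ρ x - sdTwo J Ω Ω x / quot Ω Ω Ω x)
    ((cE hρ hp).sub (cE h.1 p0))
    (fun x => sub_nonneg.2 (by rw [k, le_div_iff₀ (hp x)]; exact (point2 h hρ x).2.2.1))
    (by rw [integral_sub (hμ.int (cE hρ hp)) (hμ.int (cE h.1 p0))]; exact sub_nonpos.2 hE)
  have B := fun x => (point2 h hρ x).2.2.2 (by
    have := sub_eq_zero.1 (A x)
    rw [k, div_eq_iff (hp x).ne'] at this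
    exact this.symm)
  exact funext fun x => (B x).2
    (zero_of hμ (sm_quot h.nd hz.sm hz.sm).continuous (fun x => (B x).1) z2.le x)

end Pool.Agent.DonPM
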